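import Pool.Agent.H90.Cdc.Lift
import Pool.Agent.H46.Flow.Cover
import Pool.Agent.H46.Flow.Seymour

/-!
# The cycle double cover theorem

Every `F₂³`-flow of a finite simple graph is induced by eight even subgraphs; with the eight-flow
theorem this gives eight even subgraphs covering every edge exactly twice.
-/

set_option autoImplicit false
set_option linter.unusedSectionVars false
open scoped Classical
open Finset

namespace Pool.Agent.H90.Cdc

open Pool.Agent.H46.Flow

/-- A cyclic permutation for which every function with sum zero is a difference. -/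
lemma exists_nu (V : Type) [Fintype V] : ∃ ν : Equiv.Perm V, ∀ f : V → K3, ∑ v, f v = 0 →
    ∃ g : V → K3, ∀ v, g (ν v) = g v + f (ν v) := by
  rcases isEmpty_or_nonempty V with hV | hV
  · exact ⟨1, fun f _ => ⟨f, fun v => isEmptyElim v⟩⟩
  · obtain ⟨n, hn⟩ : ∃ n, Fintype.card V = n + 1 :=
      ⟨Fintype.card V - 1, by have := Fintype.card_pos (α := V); omega⟩
    let e : V ≃ Fin (n + 1) := Fintype.equivFinOfCardEq hn
    refine ⟨(e.trans (finRotate (n + 1))).trans e.symm, fun f hf => ?_⟩
    have hf' : ∑ i, f (e.symm i) = 0 := by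
      rw [← hf]
      exact Equiv.sum_comp e.symm f
    refine ⟨fun v => ∑ j ∈ Finset.Iic (e v), f (e.symm j), fun v => ?_⟩
    simp only [Equiv.trans_apply, Equiv.apply_symm_apply]
    by_cases hl : e v = Fin.last n
    · rw [hl, finRotate_last]
      have h1 : Finset.Iic (Fin.last n) = Finset.univ := by
        ext j
        simp [Fin.le_last]
      have h2 : Finset.Iic (0 : Fin (n + 1)) = {0} := by
        ext j
        simp
      rw [h1, h2, hf', Finset.sum_singleton, zero_add]
    · have hc := coe_finRotate_of_ne_last hl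
      have h1 : Finset.Iic (finRotate (n + 1) (e v))
          = insert (finRotate (n + 1) (e v)) (Finset.Iic (e v)) := by
        ext j
        simp only [Finset.mem_Iic, Finset.mem_insert, Fin.le_def, Fin.ext_iff]
        omega
      rw [h1, Finset.sum_insert, add_comm]
      simp only [Finset.mem_Iic, Fin.le_def]
      omega

/-- Every `F₂³`-flow of a graph is induced by eight even subgraphs. -/
theorem flow_lift {V : Type} [Fintype V] (t : V → V → K3) (hsymm : ∀ u v, t v u = t u v)
    (hdiag : ∀ v, t v v = 0) (hcons : ∀ v, ∑ w, t v w = 0) :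
    ∃ s : V → V → K3, (∀ u v, s v u = s u v) ∧ ∀ (v : V) (c : K3),
      ∑ w, ind (s v w) (t v w) c = 0 := by
  obtain ⟨ν, hν⟩ := exists_nu V
  choose g hg using fun v => hν (t v) (hcons v)
  let N : Equiv.Perm (V × V) := Equiv.prodCongr (Equiv.refl V) ν
  have hN : ∀ x : V × V, N x = (x.1, ν x.2) := fun x => rfl
  have hNs : ∀ x : V × V, N.symm x = (x.1, ν.symm x.2) := fun x => rfl
  obtain ⟨sc, sn, h1, h2⟩ := lifting (X := V × V) Prod.swap Prod.swap_swap N
    (fun x => t x.1 x.2) (fun x => g x.1 x.2) (fun x => hsymm _ _)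
    (fun x hx => by
      have h3 : x.2 = x.1 := congrArg Prod.fst hx
      rw [h3]
      exact hdiag _)
    (fun x => by
      rw [hNs]
      simp only []
      have h4 := hg x.1 (ν.symm x.2)
      rw [Equiv.apply_symm_apply] at h4
      rw [h4]
      have h5 : t x.1 x.2 + (g x.1 (ν.symm x.2) + t x.1 x.2) + g x.1 (ν.symm x.2)
          = (t x.1 x.2 + t x.1 x.2) + (g x.1 (ν.symm x.2) + g x.1 (ν.symm x.2)) := by abel
      rw [h5, add_self_K3, add_self_K3, add_zero])
  refine ⟨fun u v => sc (u, v), fun u v => h1 (u, v), fun v c => ?_⟩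
  have h3 : ∑ w, (ind (sc (v, w)) (t v w) c + ind (sn (v, w)) (g v w) c
      + ind (sn (v, ν.symm w)) (g v (ν.symm w)) c) = 0 :=
    Finset.sum_eq_zero fun w _ => h2 (v, w) c
  rw [Finset.sum_add_distrib, Finset.sum_add_distrib,
    Equiv.sum_comp ν.symm (fun w => ind (sn (v, w)) (g v w) c), add_assoc,
    CharTwo.add_self_eq_zero, add_zero] at h3
  exact h3

lemma ind_zero (s c : K3) : ind s 0 c = 0 := by
  revert s c
  decide

lemma ind_count (s t : K3) (ht : t ≠ 0) : (univ.filter fun c => ind s t c ≠ 0).card = 2 := by
  revert s t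
  decide

/-- Three binary flows are induced by eight binary flows: `k c` is the indicator function of the
set of edges `e` with `c ∈ {s e, s e + t e}`. -/
theorem binary_lift {V : Type} [Fintype V] {G : SimpleGraph V} (f₁ f₂ f₃ : V → V → ZMod 2)
    (h₁ : IsFlow G f₁) (h₂ : IsFlow G f₂) (h₃ : IsFlow G f₃) :
    ∃ k : K3 → V → V → ZMod 2, (∀ c, IsFlow G (k c)) ∧
      ∀ u v, (f₁ u v ≠ 0 ∨ f₂ u v ≠ 0 ∨ f₃ u v ≠ 0) →
        (univ.filter fun c => k c u v ≠ 0).card = 2 := by
  have hneg : ∀ a : ZMod 2, -a = a := by decide
  obtain ⟨s, hs, hk⟩ := flow_lift (fun u v => (f₁ u v, f₂ u v, f₃ u v))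
    (fun u v => by
      have e1 := h₁.anti u v
      have e2 := h₂.anti u v
      have e3 := h₃.anti u v
      rw [hneg] at e1 e2 e3
      simp only [e1, e2, e3])
    (fun v => by simp only [h₁.diag, h₂.diag, h₃.diag]; rfl)
    (fun v => by
      refine Prod.ext ?_ (Prod.ext ?_ ?_)
      · rw [Prod.fst_sum]
        exact h₁.cons v
      · rw [Prod.snd_sum, Prod.fst_sum]
        exact h₂.cons v
      · rw [Prod.snd_sum, Prod.snd_sum]
        exact h₃.cons v)
  refine ⟨fun c u v => ind (s u v) (f₁ u v, f₂ u v, f₃ u v) c, fun c => ⟨fun u v => ?_,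
    fun u v huv => ?_, fun v => hk v c⟩, fun u v huv => ind_count _ _ fun h0 => ?_⟩
  · have e1 := h₁.anti u v
    have e2 := h₂.anti u v
    have e3 := h₃.anti u v
    rw [hneg] at e1 e2 e3
    beta_reduce
    rw [hneg, hs u v, e1, e2, e3]
  · beta_reduce
    rw [h₁.supp u v huv, h₂.supp u v huv, h₃.supp u v huv]
    exact ind_zero _ _
  · rw [Prod.mk_eq_zero, Prod.mk_eq_zero] at h0
    rcases huv with h | h | h
    · exact h h0.1
    · exact h h0.2.1
    · exact h h0.2.2

/-- A graph without cut edges has eight even subgraphs covering every edge exactly twice. -/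
theorem eight_even {V : Type} [Fintype V] {G : SimpleGraph V}
    (hb : ∀ u v : V, G.Adj u v → (G.deleteEdges {s(u, v)}).Reachable u v) :
    ∃ k : K3 → V → V → ZMod 2, (∀ c, IsFlow G (k c)) ∧
      ∀ u v, G.Adj u v → (univ.filter fun c => k c u v ≠ 0).card = 2 := by
  obtain ⟨f2, f3, h2, h3, h⟩ := six_flow (G := G) hb
  obtain ⟨k1, k2, hk1, hk2, hk⟩ := three_to_four f3 h3
  obtain ⟨k, hk', hcount⟩ := binary_lift f2 k1 k2 h2 hk1 hk2
  refine ⟨k, hk', fun u v huv => hcount u v ?_⟩
  rcases h u v huv with h4 | h4
  · exact Or.inl h4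
  · rcases (hk u v).mp h4 with h5 | h5
    · exact Or.inr (Or.inl h5)
    · exact Or.inr (Or.inr h5)

/-! ### Cycles -/

lemma dart_count {V : Type} {G : SimpleGraph V} {u v : V} (huv : u ≠ v) :
    ∀ L : List G.Dart, (L.filter (fun d => decide (d.toProd = (u, v)))).length
      + (L.filter (fun d => decide (d.toProd = (v, u)))).length
      = (L.map SimpleGraph.Dart.edge).count s(u, v) := by
  intro L
  induction L with
  | nil => rfl
  | cons d L ih =>
    rw [List.map_cons, List.count_cons, ← ih, List.filter_cons, List.filter_cons]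
    by_cases h1 : d.toProd = (u, v)
    · have h2 : ¬ d.toProd = (v, u) := by
        rw [h1]
        intro h
        exact huv (congrArg Prod.fst h)
      have h3 : d.edge = s(u, v) := by
        have h4 : d.edge = s(d.toProd.1, d.toProd.2) := rfl
        rw [h4, h1]
      rw [if_pos (by simpa using h1), if_neg (by simpa using h2), if_pos (by simpa using h3),
        List.length_cons]
      omega
    · by_cases h2 : d.toProd = (v, u)
      · have h3 : d.edge = s(u, v) := by
          have h4 : d.edge = s(d.toProd.1, d.toProd.2) := rfl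
          rw [h4, h2]
          exact Sym2.eq_swap
        rw [if_neg (by simpa using h1), if_pos (by simpa using h2), if_pos (by simpa using h3),
          List.length_cons]
        omega
      · have h3 : ¬ d.edge = s(u, v) := by
          intro h
          have h4 : s(d.fst, d.snd) = s(u, v) := h
          rw [Sym2.eq_iff] at h4
          rcases h4 with ⟨a, b⟩ | ⟨a, b⟩
          · exact h1 (Prod.ext a b)
          · exact h2 (Prod.ext a b)
        rw [if_neg (by simpa using h1), if_neg (by simpa using h2), if_neg (by simpa using h3)]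
        omega

/-- An even subgraph is a union of edge-disjoint cycles. -/
theorem even_cycles {V : Type} [Fintype V] {G : SimpleGraph V} (k : V → V → ZMod 2)
    (hk : IsFlow G k) : ∃ C : List (Σ v : V, G.Walk v v), (∀ c ∈ C, c.2.IsCycle) ∧
      ∀ u v, G.Adj u v → (C.filter (fun c => decide (s(u, v) ∈ c.2.edges))).length
        = if k u v ≠ 0 then 1 else 0 := by
  obtain ⟨g, hg, hgk, hlt⟩ := tutte (by norm_num) k hk
  obtain ⟨C, hC, hC2⟩ := cycles_of_flow g hg (fun u v => by
    have := hlt u v
    push_cast at this
    omega)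
  refine ⟨C, hC, fun u v huv => ?_⟩
  have h1 : ∀ D : List (Σ v : V, G.Walk v v), (∀ c ∈ D, c.2.IsCycle) →
      (D.filter (fun c => decide (s(u, v) ∈ c.2.edges))).length
        = arcCount D u v + arcCount D v u := by
    intro D
    induction D with
    | nil => intro _; rfl
    | cons c D ih =>
      intro hD
      have h2 := ih fun c' hc' => hD c' (List.mem_cons_of_mem _ hc')
      have h3 := dart_count huv.ne c.2.darts
      have h4 : (c.2.darts.map SimpleGraph.Dart.edge).Nodup :=
        (hD c List.mem_cons_self).isTrail.edges_nodup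
      rw [h4.count] at h3
      have h5 : (s(u, v) ∈ c.2.darts.map SimpleGraph.Dart.edge) ↔ s(u, v) ∈ c.2.edges := Iff.rfl
      rw [arcCount_cons, arcCount_cons, List.countP_eq_length_filter,
        List.countP_eq_length_filter, List.filter_cons]
      by_cases h6 : s(u, v) ∈ c.2.edges
      · rw [if_pos (h5.mpr h6)] at h3
        rw [if_pos (by simpa using h6), List.length_cons, h2]
        omega
      · rw [if_neg (fun h => h6 (h5.mp h))] at h3
        rw [if_neg (by simpa using h6), h2]
        omega
  rw [h1 C hC, hC2, hC2]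
  have e1 := hg.anti u v
  have l1 := hlt u v
  have l2 := hlt v u
  have h7 : k u v ≠ 0 ↔ g u v % 2 = 1 := by
    rw [← hgk u v]
    exact cast2_ne
  push_cast at l1 l2
  by_cases h8 : k u v ≠ 0
  · rw [if_pos h8]
    rw [h7] at h8
    split_ifs <;> omega
  · rw [if_neg h8]
    rw [h7] at h8
    split_ifs <;> omega

/-- **Cycle double cover theorem.** -/
theorem cdc {V : Type} [Fintype V] {G : SimpleGraph V}
    (hb : ∀ u v : V, G.Adj u v → (G.deleteEdges {s(u, v)}).Reachable u v) :
    ∃ C : Fin 8 → List (Σ v : V, G.Walk v v),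
      (∀ i, ∀ c ∈ C i, c.2.IsCycle) ∧
      (∀ i, (C i).Pairwise fun c d => c.2.edges.Disjoint d.2.edges) ∧
      ∀ e ∈ G.edgeSet, ∑ i, ((C i).filter fun c => decide (e ∈ c.2.edges)).length = 2 := by
  obtain ⟨k, hk, hcount⟩ := eight_even hb
  choose D hD hD2 using fun c => even_cycles (k c) (hk c)
  have hcard : Fintype.card K3 = 8 := by decide
  let e : K3 ≃ Fin 8 := Fintype.equivFinOfCardEq hcard
  have hle : ∀ c (b : Sym2 V), ((D c).filter fun w => decide (b ∈ w.2.edges)).length ≤ 1 := by
    intro c b
    by_cases hb' : b ∈ G.edgeSet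
    · induction b using Sym2.ind with
      | _ u v =>
        rw [hD2 c u v hb']
        split_ifs <;> omega
    · rw [List.filter_eq_nil_iff.mpr]
      · simp
      · intro w _
        simp only [decide_eq_true_eq]
        intro hmem
        exact hb' (w.2.edges_subset_edgeSet hmem)
  refine ⟨fun i => D (e.symm i), fun i => hD _, fun i => ?_, ?_⟩
  · have h1 : ∀ L : List (Σ v : V, G.Walk v v),
        (∀ b, (L.filter fun w => decide (b ∈ w.2.edges)).length ≤ 1) →
        L.Pairwise fun c d => c.2.edges.Disjoint d.2.edges := by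
      intro L
      induction L with
      | nil => intro _; exact List.Pairwise.nil
      | cons c L ih =>
        intro hL
        refine List.Pairwise.cons ?_ (ih fun b => ?_)
        · intro d hd b hbc hbd
          have h2 := hL b
          rw [List.filter_cons, if_pos (by simpa using hbc), List.length_cons] at h2
          have h3 : d ∈ L.filter fun w => decide (b ∈ w.2.edges) := by
            rw [List.mem_filter]
            exact ⟨hd, by simpa using hbd⟩
          have h4 := List.length_pos_of_mem h3
          omega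
        · have h2 := hL b
          rw [List.filter_cons] at h2
          split_ifs at h2
          · rw [List.length_cons] at h2
            omega
          · exact h2
    exact h1 _ fun b => hle _ b
  · intro b hb'
    induction b using Sym2.ind with
    | _ u v =>
      have h2 : ∀ i : Fin 8, ((D (e.symm i)).filter fun c => decide (s(u, v) ∈ c.2.edges)).length
          = if k (e.symm i) u v ≠ 0 then 1 else 0 := fun i => hD2 _ u v hb'
      rw [Finset.sum_congr rfl fun i _ => h2 i,
        Equiv.sum_comp e.symm (fun c => if k c u v ≠ 0 then 1 else 0)]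
      have h3 := hcount u v hb'
      rw [Finset.card_filter] at h3
      exact h3

end Pool.Agent.H90.Cdc
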