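import Mathlib

/-!
# Every `F₂³`-flow of a subcubic graph is induced by eight even subgraphs

The subcubic graph is given by a finite type `X` of vertices, an involution `χ` (cross edges
`x — χ x`) and a permutation `ν` (edges `x — ν x`).  A flow is a pair of functions
`tc` (invariant under `χ`) and `tn` with `tc x + tn x + tn (ν⁻¹ x) = 0`.
-/

set_option autoImplicit false

namespace Pool.Agent.H90.Cdc

/-- `F₂³`. -/
abbrev K3 : Type := ZMod 2 × ZMod 2 × ZMod 2

/-- The scalar product. -/
def dot (x y : K3) : ZMod 2 := x.1 * y.1 + x.2.1 * y.2.1 + x.2.2 * y.2.2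

/-- The cross product. -/
def crs (x y : K3) : K3 :=
  (x.2.1 * y.2.2 + x.2.2 * y.2.1, x.1 * y.2.2 + x.2.2 * y.1, x.1 * y.2.1 + x.2.1 * y.1)

/-- The quadratic map whose polarisation is the cross product. -/
def qd (x : K3) : K3 := (x.2.1 * x.2.2, x.1 * x.2.2, x.1 * x.2.1)

/-- The function `1_{s = c} + 1_{s + t = c}`. -/
def ind (s t c : K3) : ZMod 2 := (if s = c then 1 else 0) + (if s + t = c then 1 else 0)

lemma dot_add_left (x y z : K3) : dot (x + y) z = dot x z + dot y z := by
  unfold dot
  simp only [Prod.fst_add, Prod.snd_add]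
  ring

lemma dot_add_right (x y z : K3) : dot x (y + z) = dot x y + dot x z := by
  unfold dot
  simp only [Prod.fst_add, Prod.snd_add]
  ring

lemma dot_zero_right (x : K3) : dot x 0 = 0 := by
  simp [dot]

lemma dot_zero_left (x : K3) : dot 0 x = 0 := by
  simp [dot]

lemma crs_add_left (x y z : K3) : crs (x + y) z = crs x z + crs y z := by
  unfold crs
  simp only [Prod.fst_add, Prod.snd_add, Prod.mk_add_mk]
  refine Prod.ext (by simp only []; ring) (Prod.ext (by simp only []; ring) (by simp only []; ring))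

lemma crs_zero_left (z : K3) : crs 0 z = 0 := by
  simp [crs]

lemma add_self_K3 (x : K3) : x + x = 0 := by
  revert x
  decide

/-- The triple product. -/
lemma triple (u s t : K3) : dot u (crs s t) = dot s (crs t u) := by
  revert u s t
  decide

lemma dot_eq_zero (x : K3) (h : ∀ s : K3, dot s x = 0) : x = 0 := by
  revert x
  decide

/-- The key identity. -/
lemma key (p p' t : K3) (h : crs t (p + p') = 0) :
    dot (p + p') (qd t) = dot (qd p + qd p') t := by
  revert p p' t
  decide

/-- The cubic monomial. -/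
def P3 (x : K3) : ZMod 2 := x.1 * x.2.1 * x.2.2

/-- Expansion of the indicator. -/
lemma ind_eq (s t a : K3) : ind s t a = P3 s + P3 (s + t)
    + dot (a + (1, 1, 1)) (crs s t + qd t) + dot (qd (a + (1, 1, 1))) t := by
  revert s t a
  decide

/-- The local step: at a vertex of degree at most three the word vanishes. -/
lemma local_step (s₁ t₁ s₂ t₂ s₃ t₃ : K3) (h1 : t₁ + t₂ + t₃ = 0)
    (h2 : crs s₁ t₁ + crs s₂ t₂ + crs s₃ t₃ = qd t₁ + qd t₂ + qd t₃) (c : K3) :
    ind s₁ t₁ c + ind s₂ t₂ c + ind s₃ t₃ c = 0 := by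
  have h3 : (crs s₁ t₁ + qd t₁) + (crs s₂ t₂ + qd t₂) + (crs s₃ t₃ + qd t₃) = 0 := by
    have : (crs s₁ t₁ + qd t₁) + (crs s₂ t₂ + qd t₂) + (crs s₃ t₃ + qd t₃)
        = (crs s₁ t₁ + crs s₂ t₂ + crs s₃ t₃) + (qd t₁ + qd t₂ + qd t₃) := by abel
    rw [this, h2, add_self_K3]
  set M : ZMod 2 := (P3 s₁ + P3 (s₁ + t₁)) + (P3 s₂ + P3 (s₂ + t₂)) + (P3 s₃ + P3 (s₃ + t₃))
    with hM
  have hsum : ∀ a : K3, ind s₁ t₁ a + ind s₂ t₂ a + ind s₃ t₃ a = M := by
    intro a
    rw [ind_eq, ind_eq, ind_eq]
    have e1 : dot (a + (1, 1, 1)) (crs s₁ t₁ + qd t₁) + dot (a + (1, 1, 1)) (crs s₂ t₂ + qd t₂)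
        + dot (a + (1, 1, 1)) (crs s₃ t₃ + qd t₃) = 0 := by
      rw [← dot_add_right, ← dot_add_right, h3, dot_zero_right]
    have e2 : dot (qd (a + (1, 1, 1))) t₁ + dot (qd (a + (1, 1, 1))) t₂
        + dot (qd (a + (1, 1, 1))) t₃ = 0 := by
      rw [← dot_add_right, ← dot_add_right, h1, dot_zero_right]
    rw [hM]
    linear_combination e1 + e2
  rw [hsum]
  by_contra hne
  have hM1 : M = 1 := by
    revert hne
    generalize M = m
    revert m
    decide
  have hcov : (Finset.univ : Finset K3) ⊆ {s₁, s₁ + t₁, s₂, s₂ + t₂, s₃, s₃ + t₃} := by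
    intro a _
    by_contra hna
    simp only [Finset.mem_insert, Finset.mem_singleton, not_or] at hna
    obtain ⟨n1, n2, n3, n4, n5, n6⟩ := hna
    have := hsum a
    rw [hM1] at this
    unfold ind at this
    rw [if_neg (Ne.symm n1), if_neg (Ne.symm n2), if_neg (Ne.symm n3), if_neg (Ne.symm n4),
      if_neg (Ne.symm n5), if_neg (Ne.symm n6)] at this
    simp at this
  have hcard := Finset.card_le_card hcov
  have h6 : ({s₁, s₁ + t₁, s₂, s₂ + t₂, s₃, s₃ + t₃} : Finset K3).card ≤ 6 := Finset.card_le_six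
  have h8 : (Finset.univ : Finset K3).card = 8 := by decide
  omega

lemma crs_smul_left (r : ZMod 2) (x z : K3) : crs (r • x) z = r • crs x z := by
  unfold crs
  simp only [Prod.smul_fst, Prod.smul_snd, smul_eq_mul, Prod.smul_mk]
  refine Prod.ext (by simp only []; ring) (Prod.ext (by simp only []; ring) (by simp only []; ring))

/-- Every linear functional on `X → F₂³` is a scalar product. -/
lemma exists_dual {X : Type*} [Fintype X] [DecidableEq X]
    (f : (X → K3) →ₗ[ZMod 2] ZMod 2) : ∃ p : X → K3, ∀ y, f y = ∑ x, dot (p x) (y x) := by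
  refine ⟨fun x => (f (Pi.single x (1, 0, 0)), f (Pi.single x (0, 1, 0)),
    f (Pi.single x (0, 0, 1))), fun y => ?_⟩
  have hy : y = ∑ x, Pi.single x (y x) := by
    funext z
    rw [Finset.sum_apply]
    simp [Pi.single_apply]
  conv_lhs => rw [hy]
  rw [map_sum]
  refine Finset.sum_congr rfl fun x _ => ?_
  have h3 : (Pi.single x (y x) : X → K3) = (y x).1 • (Pi.single x (1, 0, 0) : X → K3)
      + (y x).2.1 • (Pi.single x (0, 1, 0) : X → K3)
      + (y x).2.2 • (Pi.single x (0, 0, 1) : X → K3) := by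
    funext z
    by_cases hz : z = x
    · subst hz
      simp
    · simp [hz]
  rw [h3, map_add, map_add, map_smul, map_smul, map_smul]
  simp only [dot, smul_eq_mul]
  ring

/-- The linear map of the lifting problem. -/
def liftMap {X : Type*} (χ : X → X) (ν : Equiv.Perm X) (tc tn : X → K3) :
    ((X → K3) × (X → K3)) →ₗ[ZMod 2] (X → K3) where
  toFun rs := fun x => crs (rs.1 x + rs.1 (χ x)) (tc x) + crs (rs.2 x) (tn x)
    + crs (rs.2 (ν.symm x)) (tn (ν.symm x))
  map_add' a b := by
    funext x
    simp only [Prod.fst_add, Prod.snd_add, Pi.add_apply, crs_add_left]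
    abel
  map_smul' r a := by
    funext x
    simp only [Prod.smul_fst, Prod.smul_snd, Pi.smul_apply, crs_add_left, crs_smul_left,
      RingHom.id_apply, smul_add]

/-- The linear system is solvable. -/
theorem exists_lift {X : Type*} [Fintype X] [DecidableEq X] (χ : X → X)
    (hχ : ∀ x, χ (χ x) = x) (ν : Equiv.Perm X) (tc tn : X → K3)
    (htc : ∀ x, tc (χ x) = tc x) (hfix : ∀ x, χ x = x → tc x = 0)
    (hflow : ∀ x, tc x + tn x + tn (ν.symm x) = 0) :
    ∃ sc sn : X → K3, (∀ x, sc (χ x) = sc x) ∧ ∀ x,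
      crs (sc x) (tc x) + crs (sn x) (tn x) + crs (sn (ν.symm x)) (tn (ν.symm x))
        = qd (tc x) + qd (tn x) + qd (tn (ν.symm x)) := by
  set b : X → K3 := fun x => qd (tc x) + qd (tn x) + qd (tn (ν.symm x)) with hb
  by_cases hmem : b ∈ LinearMap.range (liftMap χ ν tc tn)
  · obtain ⟨⟨r, s⟩, hrs⟩ := hmem
    refine ⟨fun x => r x + r (χ x), s, fun x => ?_, fun x => ?_⟩
    · simp only [hχ]
      abel
    · exact congrFun hrs x
  · exfalso
    obtain ⟨f, hf, hker⟩ := Submodule.exists_le_ker_of_notMem hmem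
    obtain ⟨p, hp⟩ := exists_dual f
    have hA : ∀ r s : X → K3, ∑ x, dot (p x) (crs (r x + r (χ x)) (tc x) + crs (s x) (tn x)
        + crs (s (ν.symm x)) (tn (ν.symm x))) = 0 := by
      intro r s
      have h1 : liftMap χ ν tc tn (r, s) ∈ LinearMap.ker f := hker ⟨(r, s), rfl⟩
      rw [LinearMap.mem_ker, hp] at h1
      exact h1
    let χe : Equiv.Perm X := ⟨χ, χ, hχ, hχ⟩
    have hsumχ : ∀ F : X → ZMod 2, ∑ x, F (χ x) = ∑ x, F x := fun F => Equiv.sum_comp χe F
    have hsumν : ∀ F : X → ZMod 2, ∑ x, F (ν.symm x) = ∑ x, F x :=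
      fun F => Equiv.sum_comp ν.symm F
    have hc : ∀ x, crs (tc x) (p x + p (χ x)) = 0 := by
      intro x0
      refine dot_eq_zero _ fun w => ?_
      have h1 := hA (Pi.single x0 w) 0
      simp only [Pi.zero_apply, crs_zero_left, add_zero] at h1
      have h2 : ∑ x, dot (p x) (crs ((Pi.single x0 w : X → K3) x + (Pi.single x0 w : X → K3) (χ x))
          (tc x)) = ∑ x, dot ((Pi.single x0 w : X → K3) x) (crs (tc x) (p x + p (χ x))) := by
        simp only [crs_add_left, dot_add_right, Finset.sum_add_distrib]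
        rw [← hsumχ (fun x => dot (p x) (crs ((Pi.single x0 w : X → K3) (χ x)) (tc x))),
          ← Finset.sum_add_distrib]
        refine Finset.sum_congr rfl fun x _ => ?_
        rw [hχ, htc, ← dot_add_left, triple]
      rw [h2] at h1
      rw [Finset.sum_eq_single x0] at h1
      · simpa using h1
      · intro y _ hy
        simp [hy, dot_zero_left]
      · intro h
        exact absurd (Finset.mem_univ _) h
    have hn : ∀ x, crs (tn x) (p x + p (ν x)) = 0 := by
      intro x0
      refine dot_eq_zero _ fun w => ?_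
      have h1 := hA 0 (Pi.single x0 w)
      simp only [Pi.zero_apply, crs_zero_left, zero_add, add_zero] at h1
      have h2 : ∑ x, dot (p x) (crs ((Pi.single x0 w : X → K3) x) (tn x)
          + crs ((Pi.single x0 w : X → K3) (ν.symm x)) (tn (ν.symm x)))
          = ∑ x, dot ((Pi.single x0 w : X → K3) x) (crs (tn x) (p x + p (ν x))) := by
        simp only [dot_add_right, Finset.sum_add_distrib]
        have h3 := hsumν (fun x => dot (p (ν x)) (crs ((Pi.single x0 w : X → K3) x) (tn x)))
        simp only [Equiv.apply_symm_apply] at h3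
        rw [h3, ← Finset.sum_add_distrib]
        refine Finset.sum_congr rfl fun x _ => ?_
        rw [← dot_add_left, triple]
      rw [h2] at h1
      rw [Finset.sum_eq_single x0] at h1
      · simpa using h1
      · intro y _ hy
        simp [hy, dot_zero_left]
      · intro h
        exact absurd (Finset.mem_univ _) h
    apply hf
    rw [hp, hb]
    simp only [dot_add_right, Finset.sum_add_distrib]
    have h4 := hsumν (fun x => dot (p (ν x)) (qd (tn x)))
    simp only [Equiv.apply_symm_apply] at h4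
    rw [h4, add_assoc, ← Finset.sum_add_distrib (f := fun x => dot (p x) (qd (tn x)))]
    have h5 : ∑ x, (dot (p x) (qd (tn x)) + dot (p (ν x)) (qd (tn x)))
        = ∑ x, (dot (qd (p x)) (tn x) + dot (qd (p (ν x))) (tn x)) := by
      refine Finset.sum_congr rfl fun x _ => ?_
      rw [← dot_add_left, ← dot_add_left]
      exact key _ _ _ (hn x)
    have h6 : ∑ x, (dot (p x) (qd (tc x)) + dot (qd (p x)) (tc x)) = 0 := by
      refine Finset.sum_involution (fun x _ => χ x) ?_ ?_ ?_ ?_
      · intro x _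
        rw [htc]
        have h7 := key _ _ _ (hc x)
        rw [dot_add_left, dot_add_left] at h7
        have h8 : dot (p x) (qd (tc x)) + dot (qd (p x)) (tc x)
            + (dot (p (χ x)) (qd (tc x)) + dot (qd (p (χ x))) (tc x))
            = (dot (p x) (qd (tc x)) + dot (p (χ x)) (qd (tc x)))
              + (dot (qd (p x)) (tc x) + dot (qd (p (χ x))) (tc x)) := by ring
        rw [h8, h7]
        exact CharTwo.add_self_eq_zero _
      · intro x _ hx hfx
        apply hx
        rw [hfix x hfx]
        simp [dot, qd]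
      · intro x _
        exact Finset.mem_univ _
      · intro x _
        exact hχ x
    have h7 : ∑ x, dot (p x) (qd (tc x)) = ∑ x, dot (qd (p x)) (tc x) := by
      rw [Finset.sum_add_distrib] at h6
      exact CharTwo.add_eq_zero.mp h6
    rw [h5, h7]
    have h8 := hsumν (fun x => dot (qd (p (ν x))) (tn x))
    simp only [Equiv.apply_symm_apply] at h8
    rw [Finset.sum_add_distrib, ← h8, ← Finset.sum_add_distrib, ← Finset.sum_add_distrib]
    refine Finset.sum_eq_zero fun x _ => ?_
    rw [← dot_add_right, ← dot_add_right, ← add_assoc, hflow, dot_zero_right]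

/-- **Lifting theorem.**  Every `F₂³`-flow of a subcubic graph is induced by an assignment of
pairs `{s, s + t}` such that at each vertex every colour occurs an even number of times. -/
theorem lifting {X : Type*} [Fintype X] [DecidableEq X] (χ : X → X)
    (hχ : ∀ x, χ (χ x) = x) (ν : Equiv.Perm X) (tc tn : X → K3)
    (htc : ∀ x, tc (χ x) = tc x) (hfix : ∀ x, χ x = x → tc x = 0)
    (hflow : ∀ x, tc x + tn x + tn (ν.symm x) = 0) :
    ∃ sc sn : X → K3, (∀ x, sc (χ x) = sc x) ∧ ∀ x c,
      ind (sc x) (tc x) c + ind (sn x) (tn x) c + ind (sn (ν.symm x)) (tn (ν.symm x)) c = 0 := by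
  obtain ⟨sc, sn, h1, h2⟩ := exists_lift χ hχ ν tc tn htc hfix hflow
  exact ⟨sc, sn, h1, fun x c => local_step _ _ _ _ _ _ (hflow x) (h2 x) c⟩

end Pool.Agent.H90.Cdc
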