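import Pool.Agent.H90.Cdc.Graph

/-!
# Every arc exactly `t` times, for every `t ≥ 2`
-/

set_option autoImplicit false
set_option linter.unusedSectionVars false
open scoped Classical
open Finset

namespace Pool.Agent.H90.Cdc

open Pool.Agent.H46.Flow

lemma hasCover_zero {V : Type} [Fintype V] {G : SimpleGraph V} :
    HasCover G (fun _ _ => 0) :=
  ⟨[], by simp, fun u v _ => by simp⟩

lemma hasCover_sum {V ι : Type} [Fintype V] {G : SimpleGraph V} (s : Finset ι)
    (t : ι → V → V → ℕ) (h : ∀ i ∈ s, HasCover G (t i)) :
    HasCover G (fun u v => ∑ i ∈ s, t i u v) := by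
  induction s using Finset.induction_on with
  | empty => simpa using hasCover_zero
  | insert a s ha ih =>
    refine ((h a (Finset.mem_insert_self _ _)).add
      (ih fun i hi => h i (Finset.mem_insert_of_mem hi))).congr fun u v _ => ?_
    rw [Finset.sum_insert ha]

/-- Every arc exactly twice. -/
theorem cover_two {V : Type} [Fintype V] {G : SimpleGraph V}
    (hb : ∀ u v : V, G.Adj u v → (G.deleteEdges {s(u, v)}).Reachable u v) :
    HasCover G (fun _ _ => 2) := by
  obtain ⟨k, hk, hcount⟩ := eight_even hb
  refine (hasCover_sum (univ : Finset K3) (fun c u v => if k c u v ≠ 0 then 1 else 0)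
    fun c _ => odc_single _ (hk c)).congr fun u v huv => ?_
  have h := hcount u v huv
  rw [Finset.card_filter] at h
  exact h

/-- For every `t ≥ 2` there is a list of directed cycles using every arc exactly `t` times. -/
theorem cover_ge_two {V : Type} [Fintype V] {G : SimpleGraph V}
    (hb : ∀ u v : V, G.Adj u v → (G.deleteEdges {s(u, v)}).Reachable u v) (t : ℕ) (ht : 2 ≤ t) :
    HasCover G (fun _ _ => t) := by
  rcases Nat.eq_or_lt_of_le ht with rfl | h
  · exact cover_two hb
  · obtain ⟨f2, f3, h2, h3, hh⟩ := six_flow (G := G) hb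
    exact cover_ge_three f2 f3 h2 h3 hh t h

end Pool.Agent.H90.Cdc
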